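import Pool.Agent.Helper19_RFK.Stmts

set_option autoImplicit false

open MeasureTheory Set

namespace Pool.Agent.RFK.H19

/-- REARR -/
theorem rearr (hA : PolaStmt) (hE : PoleStmt) (hI : PoliStmt) (hW : PolwStmt) (hC : CmpkStmt)
    (hR : RadmStmt) (hF : FormStmt) : RearrStmt := by
  intro L ρ g hg
  obtain ⟨f, ⟨hfA, hfE, hfI⟩, hmax⟩ := hC L ρ g hg
  have hfix : ∀ (e : ℂ) (s : ℝ), ‖e‖ = 1 → 0 < s → polar e s f = f := by
    intro e s he hs
    apply hW e s L ρ f he hs hfA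
    apply hmax
    refine ⟨hA e s L ρ f he hs.le hfA, ?_, ?_⟩
    · intro ψ hψ h0
      rw [hE e s L ρ f he hs.le hfA ψ hψ h0]
      exact hfE ψ hψ h0
    · intro r hr
      exact (hfI r hr).trans (hI e s L ρ f he hs.le hfA r hr)
  refine ⟨f, hfA, hfE, ?_, hR f hfA.lip.continuous hfix⟩
  intro r hr
  rw [(hF L L ρ ρ f f hfA hfA r hr).2, (hF L L ρ ρ g g hg hg r hr).2,
    hfE (fun v => v ^ 2) (by fun_prop) (by norm_num)]
  linarith [hfI r hr]

end Pool.Agent.RFK.H19
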