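import Pool.Agent.Helper19_RFK.Main
import Pool.Agent.Helper19_RFK.Rearr
import Pool.Agent.Helper25_RFK.Polw
import Pool.Agent.Helper7_RFK.Form
import Pool.Agent.Helper79_RFK.Mvi
import Pool.Agent.Helper79_RFK.Apx
import Pool.Agent.Helper97_RFK.Pola
import Pool.Agent.Helper97_RFK.Pole
import Pool.Agent.Helper21_RFK.Cnv
import Pool.Agent.Helper21_RFK.Maxp
import Pool.Agent.Helper25_RFK.Low
import Pool.Agent.Helper93_RFK.Asy
import Pool.Agent.Helper93_RFK.Qkp
import Pool.Agent.Helper20_RFK.Bath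
import Pool.Agent.Helper20_RFK.Upp
import Pool.Agent.Helper81_RFK.Cmpk
import Pool.Agent.Helper7_RFK.Poli
import Pool.Agent.Helper75_RFK.Key
import Pool.Agent.Helper50_RFK.Spec
import Pool.Agent.Helper50_RFK.Eqc
import Pool.Agent.Helper34_RFK.Radm
import Pool.Agent.Helper67_RFK.Reg
import Pool.Agent.Helper67_RFK.Oper
import Pool.Agent.Helper18_RFK.Lip
import Pool.Agent.Helper18_RFK.Coer

set_option autoImplicit false

namespace Pool.Agent.RFK.H19

theorem rearrAll : RearrStmt :=
  rearr H97.pola H97.pole H7.poli H25.polw H81.cmpk H34.radm H7.form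

theorem mainAll (hReg : RegStmt) (hCoer : CoerStmt) (hLip : LipStmt) : MainStmt :=
  have hQ : QkpStmt := H93.qkp
  have hMvi : MviStmt := H79.mvi
  have hApx : ApxStmt := H79.apx hQ
  have hCnv : CnvStmt := H21.cnv hQ hMvi hApx
  have hMax : MaxpStmt := H21.maxp hQ
  have hAsy : AsyStmt := H93.asy
  main hCoer hReg hLip hAsy hQ (H75.eig hReg hMvi hMax hAsy) (H75.phi hReg hMvi hMax hAsy)
    (H20.upp hReg hCnv) (H25.Low.low hQ hReg hCnv H7.form) rearrAll H20.bath

/-- The reverse Faber-Krahn inequality (Q1 of MP_ccba21_an). -/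
theorem finalAll : FinalStmt :=
  final (mainAll (H67.reg H50.eqc) (H18.coer H50.spec (H67.oper H50.eqc)) H18.lip)

end Pool.Agent.RFK.H19
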