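import Pool.Agent.Helper19_LogPot.LogInt

/-!
# Squad RFK (MP_ccba21_an, Q1): reverse Faber-Krahn inequality for the logarithmic potential operator
Definitions.  Proofs on paper: /team-store/PLAN_RFK.md
-/

set_option autoImplicit false

open MeasureTheory Set

namespace Pool.Agent.RFK

/-- The logarithmic potential `x ↦ ∫_E log |x - y| u(y) dy`. -/
noncomputable def pot (E : Set ℂ) (u : ℂ → ℝ) (x : ℂ) : ℝ :=
  ∫ y in E, Real.log ‖x - y‖ * u y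

/-- `∫_{|h| < r} (p (x + h) - p x) dh`. -/
noncomputable def lap (r : ℝ) (p : ℂ → ℝ) (x : ℂ) : ℝ :=
  ∫ h in Metric.ball (0 : ℂ) r, (p (x + h) - p x)

/-- The kernel `q_r(w) = ∫_{|h| < r} (log |w + h| - log |w|) dh`. -/
noncomputable def qk (r : ℝ) (w : ℂ) : ℝ :=
  ∫ h in Metric.ball (0 : ℂ) r, (Real.log ‖w + h‖ - Real.log ‖w‖)

/-- The mass of `q_r`. -/
noncomputable def Nr (r : ℝ) : ℝ := ∫ w, qk r w

/-- The energy `D_r(g,γ) = ∫ g(x) ∫_{|h| < r} (γ(x) - γ(x+h)) dh dx`. -/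
noncomputable def ener (r : ℝ) (g γ : ℂ → ℝ) : ℝ := - ∫ x, g x * lap r γ x

/-- `∫∫_{|h| < r} g(x) g(x+h)`. -/
noncomputable def inter (r : ℝ) (g : ℂ → ℝ) : ℝ :=
  ∫ x, ∫ h in Metric.ball (0 : ℂ) r, g x * g (x + h)

/-- Lipschitz, nonnegative, zero outside the open ball of radius `ρ`. -/
structure Adm (L : NNReal) (ρ : ℝ) (g : ℂ → ℝ) : Prop where
  lip : LipschitzWith L g
  nonneg : ∀ x, 0 ≤ g x
  supp : ∀ x, ρ ≤ ‖x‖ → g x = 0

/-- `g'` and `g` are equimeasurable. -/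
def Equi (g' g : ℂ → ℝ) : Prop :=
  ∀ ψ : ℝ → ℝ, Continuous ψ → ψ 0 = 0 → ∫ x, ψ (g' x) = ∫ x, ψ (g x)

/-- Reflection in the line `⟪e, x⟫ = s` (`‖e‖ = 1`). -/
noncomputable def refl (e : ℂ) (s : ℝ) (x : ℂ) : ℂ :=
  x - (2 * (inner ℝ e x - s) : ℝ) • e

open Classical in
/-- Polarization with respect to the half plane `⟪e, x⟫ ≤ s`. -/
noncomputable def polar (e : ℂ) (s : ℝ) (g : ℂ → ℝ) (x : ℂ) : ℝ :=
  if inner ℝ e x ≤ s then max (g x) (g (refl e s x)) else min (g x) (g (refl e s x))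

/-- The weight. -/
noncomputable def wt (x : ℂ) : ℝ := Real.exp (-‖x‖ ^ 2)

end Pool.Agent.RFK
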