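import Pool.Agent.Helper19_RFK.Stmts

set_option autoImplicit false

open MeasureTheory Set Filter Pool.Agent.Helper19_LogPot
open scoped ENNReal Topology

namespace Pool.Agent.RFK.H19

lemma bdd_of_cont {p : ℂ → ℝ} (hp : Continuous p) {E : Set ℂ} (hE : Bornology.IsBounded E) :
    ∃ C : ℝ, ∀ x ∈ E, |p x| ≤ C := by
  obtain ⟨ρ, hρ⟩ := hE.subset_closedBall 0
  obtain ⟨C, hC⟩ := (isCompact_closedBall (0 : ℂ) ρ).exists_bound_of_continuousOn hp.continuousOn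
  exact ⟨C, fun x hx => by simpa using hC x (hρ hx)⟩

lemma lip_max {p : ℂ → ℝ} {L : NNReal} (hp : LipschitzWith L p) (a : ℝ) :
    LipschitzWith L (fun x => max (a - p x) 0) := by
  have h1 : LipschitzWith L (fun x => a - p x) := by
    apply LipschitzWith.of_dist_le_mul
    intro x y
    have := hp.dist_le_mul x y
    rw [Real.dist_eq] at this ⊢
    have e : a - p x - (a - p y) = -(p x - p y) := by ring
    rwa [e, abs_neg]
  exact h1.max_const 0

lemma lim_aux {A B K1 K2 : ℝ} (h : ∀ r : ℝ, 0 < r → r ≤ 1 → A - r * K1 ≤ B + K2 * r) : A ≤ B := by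
  by_contra hneg
  push Not at hneg
  have hK0 : 0 < |K1| + |K2| + 1 := by positivity
  have hr0 : 0 < min 1 ((A - B) / (2 * (|K1| + |K2| + 1))) :=
    lt_min one_pos (div_pos (by linarith) (by positivity))
  have h11 := h (min 1 ((A - B) / (2 * (|K1| + |K2| + 1)))) hr0 (min_le_left _ _)
  have hr2 : min 1 ((A - B) / (2 * (|K1| + |K2| + 1))) ≤ (A - B) / (2 * (|K1| + |K2| + 1)) :=
    min_le_right _ _
  generalize min 1 ((A - B) / (2 * (|K1| + |K2| + 1))) = r at hr0 h11 hr2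
  rw [le_div_iff₀ (by positivity)] at hr2
  have h1 : r * K1 ≤ r * |K1| := mul_le_mul_of_nonneg_left (le_abs_self _) hr0.le
  have h2 : K2 * r ≤ |K2| * r := mul_le_mul_of_nonneg_right (le_abs_self _) hr0.le
  nlinarith

lemma num_final {M ρ ε : ℝ} (hM : 0 < M) (h1 : 1 ≤ ρ) (h6 : 2 * M < ρ) (hε : ε = 1 / (8 * M))
    (h : 1 + M * Real.log ρ - 1 / 4 ≤ M * (Real.log (ρ + 1) + ε)) : False := by
  have hρ0 : 0 < ρ := by linarith
  have h16 : Real.log (ρ + 1) - Real.log ρ ≤ 1 / ρ := by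
    rw [← Real.log_div (by linarith) (by linarith)]
    have h17 := Real.log_le_sub_one_of_pos (x := (ρ + 1) / ρ) (by positivity)
    have h18 : (ρ + 1) / ρ - 1 = 1 / ρ := by field_simp; ring
    linarith
  have h19 : M * ε = 1 / 8 := by rw [hε]; field_simp
  have h20 : M * (1 / ρ) < 1 / 2 := by
    rw [mul_one_div, div_lt_iff₀ hρ0]; linarith
  have h21 : M * (Real.log (ρ + 1) - Real.log ρ) ≤ M * (1 / ρ) :=
    mul_le_mul_of_nonneg_left h16 hM.le
  have h22 : M * (Real.log (ρ + 1) + ε) = M * Real.log (ρ + 1) + M * ε := by ring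
  have h23 : M * (Real.log (ρ + 1) - Real.log ρ) = M * Real.log (ρ + 1) - M * Real.log ρ := by ring
  linarith

/-- MAIN -/
theorem main (hCoer : CoerStmt) (hReg : RegStmt) (hLip : LipStmt) (hAsy : AsyStmt)
    (hQkp : QkpStmt) (hEig : EigStmt) (hPhi : PhiStmt) (hUpp : UppStmt) (hLow : LowStmt)
    (hRearr : RearrStmt) (hBath : BathStmt) : MainStmt := by
  intro Ω R t hΩm hΩb hR hvol ht heig
  by_contra hcon
  push Not at hcon
  set B : Set ℂ := Metric.ball (0 : ℂ) R with hB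
  have hBm : MeasurableSet B := measurableSet_ball
  have hBb : Bornology.IsBounded B := Metric.isBounded_ball
  have hvol0 : volume Ω ≠ 0 := by
    rw [hvol]; exact (Metric.measure_ball_pos volume _ hR).ne'
  obtain ⟨u, hu2, hueq, huM⟩ := hCoer Ω t hΩm hΩb hvol0 ht hcon
  have hφ := hPhi Ω t u hΩm hΩb ht hu2 hueq huM
  obtain ⟨ν, hν2, hνeq, hν1, hz⟩ := hEig B t hBm hBb ht heig
  have hcu : Continuous (pot Ω u) := hReg Ω u hΩm hΩb hu2
  have hcz : Continuous (pot B ν) := hReg B ν hBm hBb hν2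
  set M : ℝ := ∫ x in Ω, u x with hM
  set c : ℝ := -t with hc
  have hc0 : 0 < c := by rw [hc]; linarith
  obtain ⟨C1, hC1⟩ := bdd_of_cont hcu hΩb
  obtain ⟨C2, hC2⟩ := bdd_of_cont hcz hBb
  -- Lipschitz
  obtain ⟨L, hL⟩ : ∃ L : NNReal, LipschitzWith L (pot Ω u) := by
    apply hLip Ω u ((1 + C1) / c) hΩm hΩb hu2
    filter_upwards [hueq, ae_restrict_mem hΩm] with x hx hxΩ
    rw [le_div_iff₀ hc0]
    have h1 := abs_le.1 (hC1 x hxΩ)
    have h2 : |u x| * c = |1 + pot Ω u x| := by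
      rw [← hx, abs_mul, abs_of_pos hc0, mul_comm]
    rw [h2, abs_le]
    constructor <;> linarith [h1.1, h1.2]
  obtain ⟨L', hL'⟩ : ∃ L : NNReal, LipschitzWith L (pot B ν) := by
    apply hLip B ν (C2 / c) hBm hBb hν2
    filter_upwards [hνeq, ae_restrict_mem hBm] with x hx hxB
    rw [le_div_iff₀ hc0]
    have h2 : |ν x| * c = |pot B ν x| := by
      rw [← hx, abs_mul, abs_of_pos hc0, mul_comm]
    rw [h2]
    exact hC2 x hxB
  -- asymptotics
  set ε : ℝ := 1 / (8 * M) with hε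
  have hε0 : 0 < ε := by positivity
  obtain ⟨ρ₁, hρ₁⟩ := hAsy Ω u hΩm hΩb hu2 (1 / 4) (by norm_num)
  obtain ⟨ρ₂, hρ₂⟩ := hAsy B ν hBm hBb hν2 ε hε0
  rw [hν1] at hρ₂
  obtain ⟨C3, hC3⟩ := bdd_of_cont hcz (Metric.isBounded_ball (x := (0 : ℂ)) (r := ρ₂))
  -- choice of ρ
  have hlog : Tendsto (fun ρ : ℝ => Real.log ρ) atTop atTop := Real.tendsto_log_atTop
  obtain ⟨ρ, h1, h2, h3, h4, h5, h6, h7⟩ : ∃ ρ : ℝ, 1 ≤ ρ ∧ ρ₁ ≤ ρ ∧ R ≤ ρ ∧
      C1 / M + 1 / M ≤ Real.log ρ ∧ C3 ≤ Real.log ρ ∧ 2 * M < ρ ∧ ρ₂ ≤ ρ := by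
    have e : ∀ᶠ ρ : ℝ in atTop, 1 ≤ ρ ∧ ρ₁ ≤ ρ ∧ R ≤ ρ ∧
      C1 / M + 1 / M ≤ Real.log ρ ∧ C3 ≤ Real.log ρ ∧ 2 * M < ρ ∧ ρ₂ ≤ ρ := by
      filter_upwards [eventually_ge_atTop 1, eventually_ge_atTop ρ₁, eventually_ge_atTop R,
        hlog.eventually_ge_atTop (C1 / M + 1 / M), hlog.eventually_ge_atTop C3,
        eventually_gt_atTop (2 * M), eventually_ge_atTop ρ₂] with ρ a1 a2 a3 a4 a5 a6 a7
      exact ⟨a1, a2, a3, a4, a5, a6, a7⟩
    exact e.exists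
  have hρ0 : 0 < ρ := by linarith
  have hlρ : 0 ≤ Real.log ρ := Real.log_nonneg h1
  set Λ : ℝ := 1 + M * Real.log ρ - 1 / 4 with hΛ
  set l : ℝ := Real.log (ρ + 1) + ε with hl
  have hΛ0 : 0 < Λ := by rw [hΛ]; nlinarith
  have hlog1 : Real.log ρ ≤ Real.log (ρ + 1) := Real.log_le_log hρ0 (by linarith)
  have hl0 : 0 < l := by rw [hl]; linarith
  -- admissibility of g
  set g : ℂ → ℝ := fun x => max (Λ - (1 + pot Ω u x)) 0 with hg
  have hgA : Adm L ρ g := by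
    refine ⟨?_, fun x => le_max_right _ _, ?_⟩
    · have h := lip_max (a := Λ - 1) hL
      have e : g = fun x => max (Λ - 1 - pot Ω u x) 0 := by
        funext x; rw [hg]; ring_nf
      rw [e]; exact h
    · intro x hx
      apply max_eq_right
      have h8 := (abs_le.1 (hρ₁ x (h2.trans hx))).1
      have h9 : Real.log ρ ≤ Real.log ‖x‖ := Real.log_le_log hρ0 hx
      have h10 : M * Real.log ρ ≤ M * Real.log ‖x‖ := mul_le_mul_of_nonneg_left h9 huM.le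
      rw [hΛ]; linarith
  -- admissibility of γ
  obtain ⟨ρ', hρ'1, hρ'2, hρ'3⟩ : ∃ ρ' : ℝ, ρ₂ ≤ ρ' ∧ l + ε ≤ Real.log ρ' ∧ 1 ≤ ρ' := by
    have e : ∀ᶠ ρ' : ℝ in atTop, ρ₂ ≤ ρ' ∧ l + ε ≤ Real.log ρ' ∧ 1 ≤ ρ' := by
      filter_upwards [eventually_ge_atTop ρ₂, hlog.eventually_ge_atTop (l + ε),
        eventually_ge_atTop 1] with ρ a1 a2 a3
      exact ⟨a1, a2, a3⟩
    exact e.exists
  have hγA : Adm L' ρ' (fun x => max (l - pot B ν x) 0) := by
    refine ⟨lip_max hL' l, fun x => le_max_right _ _, ?_⟩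
    intro x hx
    apply max_eq_right
    have h8 := (abs_le.1 (hρ₂ x (hρ'1.trans hx))).1
    have h9 : Real.log ρ' ≤ Real.log ‖x‖ := Real.log_le_log (by linarith) hx
    linarith
  -- bounds
  have hΩΛ : ∀ x ∈ Ω, 1 + pot Ω u x ≤ Λ := by
    intro x hx
    have h8 := (abs_le.1 (hC1 x hx)).2
    have h9 : M * (C1 / M + 1 / M) ≤ M * Real.log ρ := mul_le_mul_of_nonneg_left h4 huM.le
    have h10 : M * (C1 / M + 1 / M) = C1 + 1 := by field_simp
    rw [hΛ]; linarith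
  have hzl : ∀ x : ℂ, ‖x‖ < ρ + 1 → pot B ν x ≤ l := by
    intro x hx
    by_cases hx2 : ‖x‖ < ρ₂
    · have h8 := (abs_le.1 (hC3 x (by simpa using hx2))).2
      rw [hl]; linarith
    · have h8 := (abs_le.1 (hρ₂ x (not_lt.1 hx2))).2
      by_cases hx0 : ‖x‖ = 0
      · rw [hx0, Real.log_zero] at h8
        rw [hl]; linarith
      · have h9 : Real.log ‖x‖ ≤ Real.log (ρ + 1) :=
          Real.log_le_log (lt_of_le_of_ne (norm_nonneg _) (Ne.symm hx0)) hx.le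
        rw [hl]; linarith
  have hzlB : ∀ x ∈ B, pot B ν x ≤ l := by
    intro x hx
    apply hzl
    rw [hB, mem_ball_zero_iff] at hx
    linarith
  have hgΛ : ∀ x, g x ≤ Λ := by
    intro x
    apply max_le _ hΛ0.le
    linarith [hφ x]
  -- rearrangement
  obtain ⟨f, hfA, hfE, hfD, hfm⟩ := hRearr L ρ g hgA
  have hb := hBath L ρ Λ R g f Ω hgA hfA hfE hfm hgΛ hΩm hR hvol
  -- inequality for every r
  have key : ∀ r : ℝ, 0 < r → r ≤ 1 →
      Λ ^ 2 / l - r * (2 * (Λ / l) * L + (Λ / l) ^ 2 * L') ≤ (Λ + L * r) * M := by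
    intro r hr hr1
    have hN : 0 < Nr r := (hQkp r hr).2.2.2.2.2
    have hlow := hLow B ν c Λ l L L' ρ ρ' f hBm hBb hν2 hc0 hΛ0 hl0 hνeq hν1 hz hzlB hzl hγA hfA
      r hr hr1
    have hupp := hUpp Ω u 1 c Λ L ρ hΩm hΩb hu2 hc0 hueq hφ hΩΛ hgA r hr
    have h8 : Nr r / c * ∫ x in B, (Λ - f x) ^ 2 ≤ Nr r / c * ∫ x in Ω, (Λ - g x) ^ 2 :=
      mul_le_mul_of_nonneg_left hb (by positivity)
    have h9 := hfD r hr
    have h10 : Nr r * (Λ ^ 2 / l - r * (2 * (Λ / l) * L + (Λ / l) ^ 2 * L')) ≤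
        Nr r * ((Λ + L * r) * M) := by
      calc _ ≤ _ := hlow
        _ ≤ ener r g g + Nr r / c * ∫ x in Ω, (Λ - g x) ^ 2 := by linarith
        _ ≤ _ := hupp
    exact le_of_mul_le_mul_left h10 hN
  -- limit r → 0
  have hlim : Λ ^ 2 / l ≤ Λ * M := by
    apply lim_aux (K1 := 2 * (Λ / l) * L + (Λ / l) ^ 2 * L') (K2 := L * M)
    intro r hr hr1
    have h := key r hr hr1
    have e : (Λ + L * r) * M = Λ * M + L * M * r := by ring
    rwa [e] at h
  have hfin : Λ ≤ M * l := by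
    rw [div_le_iff₀ hl0, pow_two, mul_assoc] at hlim
    exact le_of_mul_le_mul_left hlim hΛ0
  exact num_final huM h1 h6 hε (by rw [hΛ, hl] at hfin; exact hfin)

/-- FINAL -/
theorem final (hMain : MainStmt) : FinalStmt := by
  intro Ω hΩ
  obtain ⟨ho, hcon, hbd⟩ := hΩ
  have hvtop : volume Ω < ⊤ := hbd.measure_lt_top
  have hvpos : 0 < volume Ω := ho.measure_pos volume hcon.nonempty
  have hv : 0 < (volume Ω).toReal := ENNReal.toReal_pos hvpos.ne' hvtop.ne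
  set R : ℝ := Real.sqrt ((volume Ω).toReal / Real.pi) with hR
  have hR0 : 0 < R := Real.sqrt_pos.2 (by positivity)
  have hvol : volume Ω = volume (Metric.ball (0 : ℂ) R) := by
    rw [Complex.volume_ball]
    have h1 : R ^ 2 = (volume Ω).toReal / Real.pi := Real.sq_sqrt (by positivity)
    rw [← ENNReal.ofReal_pow hR0.le, h1]
    have h2 : (NNReal.pi : ℝ≥0∞) = ENNReal.ofReal Real.pi := by
      rw [ENNReal.ofReal, ENNReal.coe_inj]
      apply NNReal.coe_injective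
      simp [Real.pi_pos.le]
    rw [h2, ← ENNReal.ofReal_mul (by positivity), div_mul_cancel₀ _ Real.pi_ne_zero,
      ENNReal.ofReal_toReal hvtop.ne]
  obtain ⟨ρ, hρ⟩ := hbd.subset_ball 0
  unfold tau
  by_cases hne : ({t : ℝ | t < 0 ∧ IsLogEigenvalue (Metric.ball (0 : ℂ) R) t}).Nonempty
  · apply le_csInf hne
    rintro t ⟨ht, hte⟩
    obtain ⟨s, hs, hse⟩ := hMain Ω R t ho.measurableSet hbd hR0 hvol ht hte
    have hbb : BddBelow {t : ℝ | t < 0 ∧ IsLogEigenvalue Ω t} := by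
      refine ⟨-Real.sqrt ((volume Ω * CK (2 * ρ)).toReal), ?_⟩
      rintro s ⟨-, hs⟩
      have hb := eigenvalue_bound ho.measurableSet hρ hs
      have hfin : volume Ω * CK (2 * ρ) ≠ ∞ := (ENNReal.mul_lt_top hvtop (CK_lt_top _)).ne
      rw [ENNReal.ofReal_le_iff_le_toReal hfin] at hb
      exact (abs_le.mp (Real.abs_le_sqrt hb)).1
    exact (csInf_le hbb ⟨lt_of_le_of_lt hs ht, hse⟩).trans hs
  · rw [Set.not_nonempty_iff_eq_empty.1 hne, Real.sInf_empty]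
    apply Real.sInf_nonpos
    rintro t ⟨ht, -⟩
    exact ht.le

end Pool.Agent.RFK.H19
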