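import Pool.Agent.Helper19_RFK.Defs

/-!
# Squad RFK: statements of all modules.  Proofs on paper: /team-store/PLAN_RFK.md
-/

set_option autoImplicit false

open MeasureTheory Set Pool.Agent.Helper19_LogPot
open scoped ENNReal Topology

namespace Pool.Agent.RFK

/-! ## Part S : spectral theory -/

/-- SPEC -/
def SpecStmt : Prop := ∀ (H : Type) [NormedAddCommGroup H] [InnerProductSpace ℝ H]
  [CompleteSpace H] (T : H →L[ℝ] H) (t : ℝ) (b : H), (∀ x y, inner ℝ (T x) y = inner ℝ x (T y)) →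
  IsCompactOperator T → t < 0 → (∀ s ≤ t, ∀ x, T x = s • x → x = 0) → b ≠ 0 →
  ∃ x, T x - t • x = b ∧ 0 < inner ℝ x b

/-- EQC: equicontinuity of the kernel in `L²`. -/
def EqcStmt : Prop := ∀ ρ : ℝ, 0 < ρ → ∀ ε : ℝ, 0 < ε → ∃ δ : ℝ, 0 < δ ∧
  ∀ x ∈ Metric.closedBall (0 : ℂ) ρ, ∀ x' ∈ Metric.closedBall (0 : ℂ) ρ, dist x x' < δ →
    ∫ y in Metric.ball (0 : ℂ) ρ, (Real.log ‖x - y‖ - Real.log ‖x' - y‖) ^ 2 < ε

/-- REG: the potential of an `L²` function is continuous. -/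
def RegStmt : Prop := ∀ (E : Set ℂ) (u : ℂ → ℝ), MeasurableSet E → Bornology.IsBounded E →
  MemLp u 2 (volume.restrict E) → Continuous (pot E u)

/-- OPER: the operator. -/
def OperStmt : Prop := ∀ E : Set ℂ, MeasurableSet E → Bornology.IsBounded E →
  ∃ T : Lp ℝ 2 (volume.restrict E) →L[ℝ] Lp ℝ 2 (volume.restrict E),
    (∀ u : Lp ℝ 2 (volume.restrict E), (T u : ℂ → ℝ) =ᵐ[volume.restrict E] fun x => -pot E u x) ∧
    (∀ u v, inner ℝ (T u) v = inner ℝ u (T v)) ∧ IsCompactOperator T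

/-- COER: solution of the equation with right-hand side 1. -/
def CoerStmt : Prop := ∀ (E : Set ℂ) (t : ℝ), MeasurableSet E → Bornology.IsBounded E →
  volume E ≠ 0 → t < 0 → (∀ s ≤ t, ¬ IsLogEigenvalue E s) →
  ∃ u : ℂ → ℝ, MemLp u 2 (volume.restrict E) ∧
    (∀ᵐ x ∂(volume.restrict E), -t * u x = 1 + pot E u x) ∧ 0 < ∫ x in E, u x

/-! ## Part P : potentials -/

/-- LIP: the potential of a bounded function is Lipschitz. -/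
def LipStmt : Prop := ∀ (E : Set ℂ) (u : ℂ → ℝ) (C : ℝ), MeasurableSet E →
  Bornology.IsBounded E → MemLp u 2 (volume.restrict E) →
  (∀ᵐ x ∂(volume.restrict E), |u x| ≤ C) → ∃ L : NNReal, LipschitzWith L (pot E u)

/-- ASY: asymptotics at infinity. -/
def AsyStmt : Prop := ∀ (E : Set ℂ) (u : ℂ → ℝ), MeasurableSet E → Bornology.IsBounded E →
  MemLp u 2 (volume.restrict E) → ∀ ε : ℝ, 0 < ε → ∃ ρ₁ : ℝ, ∀ x : ℂ, ρ₁ ≤ ‖x‖ →
    |pot E u x - (∫ y in E, u y) * Real.log ‖x‖| ≤ ε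

/-- QKP: properties of the kernel. -/
def QkpStmt : Prop := ∀ r : ℝ, 0 < r → (∀ w : ℂ, w ≠ 0 → 0 ≤ qk r w) ∧
  (∀ w : ℂ, r ≤ ‖w‖ → qk r w = 0) ∧ (∀ w : ℂ, qk r (-w) = qk r w) ∧ Measurable (qk r) ∧
  Integrable (qk r) ∧ 0 < Nr r

/-- MVI: the mean value identity. -/
def MviStmt : Prop := ∀ (E : Set ℂ) (u : ℂ → ℝ), MeasurableSet E → Bornology.IsBounded E →
  MemLp u 2 (volume.restrict E) → ∀ (r : ℝ), 0 < r → ∀ x : ℂ,
    lap r (pot E u) x = ∫ y in E, qk r (x - y) * u y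

/-- APX: `q_r` is an approximate identity. -/
def ApxStmt : Prop := ∀ (L : NNReal) (ρ : ℝ) (g : ℂ → ℝ), Adm L ρ g → ∀ r : ℝ, 0 < r → ∀ y : ℂ,
  |(∫ x, qk r (x - y) * g x) - Nr r * g y| ≤ Nr r * (L * r)

/-- CNV: testing a potential against `g`. -/
def CnvStmt : Prop := ∀ (E : Set ℂ) (u : ℂ → ℝ) (L : NNReal) (ρ : ℝ) (g : ℂ → ℝ),
  MeasurableSet E → Bornology.IsBounded E → MemLp u 2 (volume.restrict E) → Adm L ρ g →
  (∀ᵐ x ∂(volume.restrict E), 0 ≤ u x) → ∀ r : ℝ, 0 < r →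
    |(∫ x, g x * lap r (pot E u) x) - Nr r * ∫ y in E, u y * g y| ≤
      Nr r * (L * r) * ∫ y in E, u y

/-- MAXP: minimum principle. -/
def MaxpStmt : Prop := ∀ (E : Set ℂ) (p : ℂ → ℝ) (κ : ℝ), MeasurableSet E → Continuous p →
  0 < κ → (∀ r : ℝ, 0 < r → ∀ x, lap r p x = κ * ∫ y in E, qk r (x - y) * p y) →
  ∀ x₀ : ℂ, (∀ x, p x₀ ≤ p x) → p x₀ < 0 → ∀ x, p x = p x₀

/-- EIG: the eigenfunction of a negative eigenvalue. -/
def EigStmt : Prop := ∀ (E : Set ℂ) (t : ℝ), MeasurableSet E → Bornology.IsBounded E → t < 0 →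
  IsLogEigenvalue E t → ∃ ν : ℂ → ℝ, MemLp ν 2 (volume.restrict E) ∧
    (∀ᵐ x ∂(volume.restrict E), -t * ν x = pot E ν x) ∧ ∫ x in E, ν x = 1 ∧ ∀ x, 0 ≤ pot E ν x

/-- PHI: positivity of the solution of COER. -/
def PhiStmt : Prop := ∀ (E : Set ℂ) (t : ℝ) (u : ℂ → ℝ), MeasurableSet E →
  Bornology.IsBounded E → t < 0 → MemLp u 2 (volume.restrict E) →
  (∀ᵐ x ∂(volume.restrict E), -t * u x = 1 + pot E u x) → 0 < ∫ x in E, u x →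
  ∀ x, 0 ≤ 1 + pot E u x

/-! ## Part E : the energy form -/

/-- FORM -/
def FormStmt : Prop := ∀ (L L' : NNReal) (ρ ρ' : ℝ) (g γ : ℂ → ℝ), Adm L ρ g → Adm L' ρ' γ →
  ∀ (r : ℝ), 0 < r →
    (∀ β : ℝ, 2 * β * ener r g γ - β ^ 2 * ener r γ γ ≤ ener r g g) ∧
    ener r g g = (volume (Metric.ball (0 : ℂ) r)).toReal * (∫ x, g x ^ 2) - inter r g

/-- UPP: upper bound for the energy of a truncated potential. -/
def UppStmt : Prop := ∀ (E : Set ℂ) (u : ℂ → ℝ) (a c Λ : ℝ) (L : NNReal) (ρ : ℝ),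
  MeasurableSet E → Bornology.IsBounded E → MemLp u 2 (volume.restrict E) → 0 < c →
  (∀ᵐ x ∂(volume.restrict E), c * u x = a + pot E u x) → (∀ x, 0 ≤ a + pot E u x) →
  (∀ x ∈ E, a + pot E u x ≤ Λ) → Adm L ρ (fun x => max (Λ - (a + pot E u x)) 0) →
  ∀ r : ℝ, 0 < r →
    ener r (fun x => max (Λ - (a + pot E u x)) 0) (fun x => max (Λ - (a + pot E u x)) 0) +
      Nr r / c * ∫ x in E, (Λ - max (Λ - (a + pot E u x)) 0) ^ 2 ≤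
    Nr r * ((Λ + L * r) * ∫ x in E, u x)

/-- LOW: lower bound. -/
def LowStmt : Prop := ∀ (E : Set ℂ) (ν : ℂ → ℝ) (c Λ l : ℝ) (L L' : NNReal) (ρ ρ' : ℝ)
  (g : ℂ → ℝ), MeasurableSet E → Bornology.IsBounded E → MemLp ν 2 (volume.restrict E) → 0 < c →
  0 < Λ → 0 < l → (∀ᵐ x ∂(volume.restrict E), c * ν x = pot E ν x) → ∫ x in E, ν x = 1 →
  (∀ x, 0 ≤ pot E ν x) → (∀ x ∈ E, pot E ν x ≤ l) → (∀ x, ‖x‖ < ρ + 1 → pot E ν x ≤ l) →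
  Adm L' ρ' (fun x => max (l - pot E ν x) 0) → Adm L ρ g → ∀ r : ℝ, 0 < r → r ≤ 1 →
    Nr r * (Λ ^ 2 / l - r * (2 * (Λ / l) * L + (Λ / l) ^ 2 * L')) ≤
      ener r g g + Nr r / c * ∫ x in E, (Λ - g x) ^ 2

/-! ## Part R : rearrangement -/

/-- POLA: polarization preserves admissibility. -/
def PolaStmt : Prop := ∀ (e : ℂ) (s : ℝ) (L : NNReal) (ρ : ℝ) (g : ℂ → ℝ), ‖e‖ = 1 → 0 ≤ s →
  Adm L ρ g → Adm L ρ (polar e s g)

/-- POLE: polarization is equimeasurable. -/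
def PoleStmt : Prop := ∀ (e : ℂ) (s : ℝ) (L : NNReal) (ρ : ℝ) (g : ℂ → ℝ), ‖e‖ = 1 → 0 ≤ s →
  Adm L ρ g → Equi (polar e s g) g

/-- POLI: polarization increases the interaction. -/
def PoliStmt : Prop := ∀ (e : ℂ) (s : ℝ) (L : NNReal) (ρ : ℝ) (g : ℂ → ℝ), ‖e‖ = 1 → 0 ≤ s →
  Adm L ρ g → ∀ r : ℝ, 0 < r → inter r g ≤ inter r (polar e s g)

/-- POLW: polarization increases the weighted integral, strictly if something changes. -/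
def PolwStmt : Prop := ∀ (e : ℂ) (s : ℝ) (L : NNReal) (ρ : ℝ) (g : ℂ → ℝ), ‖e‖ = 1 → 0 < s →
  Adm L ρ g → (∫ x, polar e s g x * wt x) ≤ ∫ x, g x * wt x → polar e s g = g

/-- CMPK: there is a maximizer of the weighted integral. -/
def CmpkStmt : Prop := ∀ (L : NNReal) (ρ : ℝ) (g : ℂ → ℝ), Adm L ρ g → ∃ f : ℂ → ℝ,
  (Adm L ρ f ∧ Equi f g ∧ ∀ r : ℝ, 0 < r → inter r g ≤ inter r f) ∧
  ∀ f' : ℂ → ℝ, (Adm L ρ f' ∧ Equi f' g ∧ ∀ r : ℝ, 0 < r → inter r g ≤ inter r f') →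
    (∫ x, f' x * wt x) ≤ ∫ x, f x * wt x

/-- RADM: a function fixed by all polarizations is radial and nonincreasing. -/
def RadmStmt : Prop := ∀ f : ℂ → ℝ, Continuous f →
  (∀ (e : ℂ) (s : ℝ), ‖e‖ = 1 → 0 < s → polar e s f = f) → ∀ x y : ℂ, ‖x‖ ≤ ‖y‖ → f y ≤ f x

/-- REARR: the symmetric rearrangement. -/
def RearrStmt : Prop := ∀ (L : NNReal) (ρ : ℝ) (g : ℂ → ℝ), Adm L ρ g → ∃ f : ℂ → ℝ,
  Adm L ρ f ∧ Equi f g ∧ (∀ r : ℝ, 0 < r → ener r f f ≤ ener r g g) ∧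
  ∀ x y : ℂ, ‖x‖ ≤ ‖y‖ → f y ≤ f x

/-- BATH -/
def BathStmt : Prop := ∀ (L : NNReal) (ρ Λ R : ℝ) (g f : ℂ → ℝ) (E : Set ℂ), Adm L ρ g →
  Adm L ρ f → Equi f g → (∀ x y : ℂ, ‖x‖ ≤ ‖y‖ → f y ≤ f x) → (∀ x, g x ≤ Λ) →
  MeasurableSet E → 0 < R → volume E = volume (Metric.ball (0 : ℂ) R) →
    ∫ x in Metric.ball (0 : ℂ) R, (Λ - f x) ^ 2 ≤ ∫ x in E, (Λ - g x) ^ 2

/-! ## Final statement -/

/-- MAIN -/
def MainStmt : Prop := ∀ (Ω : Set ℂ) (R t : ℝ), MeasurableSet Ω → Bornology.IsBounded Ω →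
  0 < R → volume Ω = volume (Metric.ball (0 : ℂ) R) → t < 0 →
  IsLogEigenvalue (Metric.ball (0 : ℂ) R) t → ∃ s ≤ t, IsLogEigenvalue Ω s

/-- FINAL -/
def FinalStmt : Prop := ∀ Ω : Set ℂ, IsBoundedDomain Ω →
  tau Ω ≤ tau (Metric.ball (0 : ℂ) (Real.sqrt ((volume Ω).toReal / Real.pi)))

end Pool.Agent.RFK
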